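import Pool.Agent.H.MP_92436f_lc.C

namespace Pool.Agent.Results.MP_92436f_lc.ExpBound

theorem result (L : ℕ) (ε : ℝ) (hε : 0 < ε) (n : ℕ) (code : Finset (Fin n → Bool))
    (h : ∀ x : Fin n → Bool,
      (code.filter (fun c => (hammingDist x c : ℝ) ≤
        ((1 : ℝ) / 2 - (Nat.choose (2 * (L / 2)) (L / 2) : ℝ) / (2 : ℝ) ^ (2 * (L / 2) + 1) + ε)
          * (n : ℝ))).card < L) :
    (code.card : ℝ) ≤ 2 * (L + 1) * Real.exp ((L + 1) ^ 3 / ε ^ 2) := by
  have h1 := Pool.Agent.H.MP_92436f_lc.main (L / 2) hε code fun x => (h x).trans_le (by omega)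
  have h2 : ((2 * (L / 2) : ℕ) : ℝ) ≤ L := by exact_mod_cast Nat.mul_div_le L 2
  push_cast at h2
  have h3 : (0 : ℝ) ≤ ((L / 2 : ℕ) : ℝ) := by positivity
  refine h1.trans (mul_le_mul (by linarith) (Real.exp_le_exp.2 ?_) (by positivity) (by positivity))
  refine div_le_div_of_nonneg_right ?_ (by positivity)
  calc _ ≤ ((L : ℝ) + 1) * ((L : ℝ) + 1) ^ 2 := by
        refine mul_le_mul (by linarith) ?_ (by positivity) (by positivity)
        exact pow_le_pow_left₀ (by positivity) (by linarith) 2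
    _ = _ := by ring

end Pool.Agent.Results.MP_92436f_lc.ExpBound
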